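import Pool.Agent.H31.BOU.Targets3

/-!
Row BOU of bou_modules: the theorem of Bourgain from the jump estimate.
-/

set_option autoImplicit false

namespace Pool.Agent.H20.BOU

open Finset Pool.Agent.H31.BOU MeasureTheory Filter

universe u

theorem jmp_mono {K : ℕ} {lam lam' : ℝ} {M M' : ℕ} {A : ℕ → ℂ} (hl : lam' ≤ lam) (hM : M ≤ M')
    (h : Jmp K lam M A) : Jmp K lam' M' A := by
  obtain ⟨n, h1, h2, h3, h4⟩ := h
  exact ⟨n, h1, h2, h3.trans hM, fun i hi => lt_of_le_of_lt hl (h4 i hi)⟩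

theorem pf_BOU (hT : T_TRF.{u}) (hC : T_CNV) : T_BOU.{u} := by
  intro X _ μ _ T f g hTp hf hg hf1 hg1
  have key : ∀ m : ℕ, ∀ᵐ x ∂μ, ∃ K : ℕ, ∀ M : ℕ,
      ¬ Jmp K (1 / ((m : ℝ) + 1)) M (fun N => AX T f g N x) := by
    intro m
    rw [ae_iff]
    refine le_antisymm (ENNReal.le_of_forall_pos_le_add fun ε hε _ => ?_) zero_le
    obtain ⟨K, hK⟩ := hT ε (1 / ((m : ℝ) + 1)) (by exact_mod_cast hε) (by positivity)
    have hK' := hK X μ T f g hTp hf hg hf1 hg1
    have hsub : {x | ¬ ∃ K : ℕ, ∀ M : ℕ, ¬ Jmp K (1 / ((m : ℝ) + 1)) M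
        (fun N => AX T f g N x)} ⊆ ⋃ M : ℕ, {x | Jmp K (1 / ((m : ℝ) + 1)) M
        (fun N => AX T f g N x)} := by
      intro x hx
      obtain ⟨M, hM⟩ := not_forall.1 (not_exists.1 hx K)
      exact Set.mem_iUnion.2 ⟨M, not_not.1 hM⟩
    have hmono : Monotone fun M : ℕ => {x | Jmp K (1 / ((m : ℝ) + 1)) M
        (fun N => AX T f g N x)} := by
      intro M M' hMM x hx
      exact jmp_mono (A := fun N => AX T f g N x) le_rfl hMM hx
    refine (measure_mono hsub).trans ?_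
    rw [hmono.measure_iUnion, zero_add]
    refine iSup_le fun M => ?_
    have h1 := (hK' M).2
    rw [← ofReal_measureReal]
    refine (ENNReal.ofReal_le_ofReal h1).trans ?_
    rw [ENNReal.ofReal_coe_nnreal]
  rw [← ae_all_iff] at key
  filter_upwards [key] with x hx
  refine hC _ fun lam hlam => ?_
  obtain ⟨m, hm⟩ := exists_nat_one_div_lt hlam
  obtain ⟨K, hK⟩ := hx m
  exact ⟨K, fun M hJ => hK M (jmp_mono hm.le le_rfl hJ)⟩

end Pool.Agent.H20.BOU
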