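import Pool.Agent.H31.BOU.Targets1
import Pool.Agent.H31.BOU.Targets2

/-!
Row DDC of bou_modules: `DD` as a convolution of localised functions.
-/

set_option autoImplicit false

namespace Pool.Agent.H20.BOU

open Finset Pool.Agent.H31.BOU

theorem pf_DDC (hH : T_HAT) (hC : T_CHI) : T_DDC := by
  intro T F G j κ t k ht hk1 hk2
  obtain ⟨h1, h2, -⟩ := hH
  obtain ⟨p, hp⟩ : ∃ p : ℤ, p = 2 ^ j := ⟨_, rfl⟩
  have hp1 : 1 ≤ p := by
    rw [hp]
    exact_mod_cast Nat.one_le_two_pow
  have hpp : (2 : ℤ) ^ (j + 1) = 2 * p := by rw [hp, pow_succ]; ring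
  rw [← hp] at hk1 hk2
  have ht' : (t : ℤ) ≤ T := by exact_mod_cast ht
  have ht0 : (0 : ℤ) ≤ t := Int.natCast_nonneg t
  have htp : (t : ℤ) * p ≤ T * p := mul_le_mul_of_nonneg_right ht' (by linarith)
  have htp0 : 0 ≤ (t : ℤ) * p := mul_nonneg ht0 (by linarith)
  obtain ⟨x, hx⟩ : ∃ x : ℤ, x = (κ - t) * p := ⟨_, rfl⟩
  have hwin : ∀ v : ℤ, v ∈ win (rr T) j κ ↔
      (κ - (2 * T + 16)) * p ≤ v ∧ v < (κ + (2 * T + 16)) * p := by
    intro v
    unfold win rr
    rw [Finset.mem_Ico, ← hp]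
    push_cast
    rw [← hp]
    have e : (κ - (2 * T + 16)) * p + 2 * (2 * T + 16) * p = (κ + (2 * T + 16)) * p := by ring
    rw [e]
  have hDD : DD F G j κ t k = ∑ v ∈ Ico x (x + 2 ^ (j + 1)),
      (hat j (v - x) : ℂ) * (G v * F (2 * k - v)) := by
    have h := h1 (fun v => G v * F (2 * k - v)) j x
    unfold DD
    rw [← hp, ← hx, h]
    have h4 : (4 : ℂ) ^ j ≠ 0 := pow_ne_zero _ (by norm_num)
    field_simp
  rw [hDD]
  have hsub : Ico x (x + 2 ^ (j + 1)) ⊆ win (rr T) j κ := by
    intro v hv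
    rw [Finset.mem_Ico, hpp, hx] at hv
    rw [hwin]
    constructor
    · nlinarith [hv.1]
    · nlinarith [hv.2]
  rw [← Finset.sum_subset (f := fun v => gm G j κ t v *
    (if 2 * k - v ∈ win (rr T) j κ then th T F j κ (2 * k - v) else 0)) hsub]
  · refine Finset.sum_congr rfl fun v hv => ?_
    rw [Finset.mem_Ico, hpp] at hv
    unfold gm
    rw [← hp, ← hx]
    by_cases hl : x + 2 * p ≤ v + 1
    · have h0 : hat j (v - x) = 0 := (h2 j (v - x)).2.2.2 (Or.inr (by rw [hpp]; linarith))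
      rw [h0]
      simp
    · have hl' : v + 2 ≤ x + 2 * p := by omega
      have hu1 : (κ + t - 2) * p + 2 ≤ 2 * k - v := by
        rw [hx] at hl'
        nlinarith
      have hu2 : 2 * k - v ≤ (κ + t + 4) * p - 2 := by
        have hk3 : k + 1 ≤ (κ + 2) * p := by omega
        rw [hx] at hv
        nlinarith [hv.1]
      have hw : 2 * k - v ∈ win (rr T) j κ := by
        rw [hwin]
        constructor
        · nlinarith
        · nlinarith
      rw [if_pos hw]
      unfold th
      rw [← hp]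
      have hchi : chi j ((κ - 4) * p) ((κ + T + 7) * p) (2 * k - v) = 1 := by
        refine (hC j ((κ - 4) * p) ((κ + T + 7) * p) (by nlinarith)).2.1 _ ?_ ?_
        · rw [← hp]
          nlinarith
        · nlinarith
      rw [hchi]
      push_cast
      ring
  · intro v _ hv
    rw [Finset.mem_Ico, not_and_or, not_le, not_lt] at hv
    have h0 : hat j (v - x) = 0 := by
      refine (h2 j (v - x)).2.2.2 ?_
      rcases hv with hv | hv
      · exact Or.inl (by linarith)
      · exact Or.inr (by linarith)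
    unfold gm
    rw [← hp, ← hx, h0]
    simp

end Pool.Agent.H20.BOU
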